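import Pool.Agent.helper64.D2.SpecF

set_option autoImplicit false

open Filter Topology
open scoped commutatorElement

namespace Pool.Agent.helper64.D2

theorem NCB (hGGB : GGB_stmt) : NCB_stmt := by
  intro f
  refine ⟨Subgroup.subset_closure (Or.inl ⟨1, (one_mem G2).1, (one_mem G2).2, by simp⟩), ?_⟩
  intro h hh x hx
  unfold NC at hx
  induction hx using Subgroup.closure_induction with
  | mem y hy =>
    rcases hy with ⟨k, hk1, hk2, rfl⟩ | ⟨n, rfl⟩
    · refine Subgroup.subset_closure (Or.inl ⟨h * k, ?_, ?_, by group⟩)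
      · exact (mul_mem (show h ∈ G2 from hh) (show k ∈ G2 from ⟨hk1, hk2⟩)).1
      · exact (mul_mem (show h ∈ G2 from hh) (show k ∈ G2 from ⟨hk1, hk2⟩)).2
    · have hc := hGGB.2.2.2.2.2.2.2 n h
      have he : h * CircleDeg1Lift.translate (Multiplicative.ofAdd (n : ℝ)) * h⁻¹
          = CircleDeg1Lift.translate (Multiplicative.ofAdd (n : ℝ)) := by
        rw [← hc]; group
      show h * CircleDeg1Lift.translate (Multiplicative.ofAdd (n : ℝ)) * h⁻¹ ∈ NC f
      rw [he]
      exact Subgroup.subset_closure (Or.inr ⟨n, rfl⟩)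
  | one => simp [(NC f).one_mem]
  | mul a b _ _ ha hb =>
    have he : h * (a * b) * h⁻¹ = (h * a * h⁻¹) * (h * b * h⁻¹) := by group
    rw [he]
    exact (NC f).mul_mem ha hb
  | inv a _ ha =>
    have he : h * a⁻¹ * h⁻¹ = (h * a * h⁻¹)⁻¹ := by group
    rw [he]
    exact (NC f).inv_mem ha

end Pool.Agent.helper64.D2
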