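import Pool.Agent.helper64.D2.SpecC

set_option autoImplicit false

open Filter Topology
open scoped commutatorElement

namespace Pool.Agent.helper64.D2

/-- **PLC**. -/
theorem PLC : PLC_stmt := by
  classical
  intro k F hk
  constructor
  · intro i
    have h : ∃ j, k j = k i := ⟨i, rfl⟩
    unfold place
    rw [dif_pos h]
    have h2 := Nat.find_spec h
    have h3 := hk.injective h2
    congr 1
  · intro n hn
    unfold place
    rw [dif_neg]
    rintro ⟨i, hi⟩
    exact hn i hi

end Pool.Agent.helper64.D2
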